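import Pool.Agent.helper73.TF.Spec

set_option autoImplicit false

namespace Pool.Agent.TF

open Matrix Pool.Agent.H48SL
open scoped Pointwise

section words
variable {G : Type} [Group G]

theorem CLO_word_succ {r : ℕ} (z : Fin (r + 1) → G) (a : Fin (r + 1) → ℤ) :
    word z a = z 0 ^ a 0 * word (fun i => z i.succ) (fun i => a i.succ) := by
  unfold word
  rw [List.ofFn_succ, List.prod_cons]

theorem CLO_word_last {r : ℕ} (z : Fin (r + 1) → G) (a : Fin (r + 1) → ℤ) :
    word z a = word (fun i : Fin r => z i.castSucc) (fun i => a i.castSucc) *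
      z (Fin.last r) ^ a (Fin.last r) := by
  unfold word
  rw [List.ofFn_succ', List.concat_eq_append, List.prod_append]
  simp

theorem CLO_word_conj (g : G) : ∀ {r : ℕ} (z : Fin r → G) (a : Fin r → ℤ),
    word (fun i => g * z i * g⁻¹) a = g * word z a * g⁻¹ := by
  intro r
  induction r with
  | zero => intro z a; simp [word]
  | succ r ih =>
    intro z a
    rw [CLO_word_succ, CLO_word_succ z a, ih (fun i => z i.succ) (fun i => a i.succ)]
    simp only [conj_zpow]
    group

/-- one letter with a constant exponent is moved to the right -/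
theorem CLO_move (Q : G → Prop) (H : Subgroup G) (hQ : ∀ g ∈ H, ∀ z, Q z → Q (g * z * g⁻¹))
    (hQH : ∀ z, Q z → z ∈ H) : ∀ (r : ℕ) (z : Fin (r + 1) → G), (∀ i, Q (z i)) →
    ∀ (i : Fin (r + 1)) (c : ℤ), ∃ z' : Fin r → G, (∀ j, Q (z' j)) ∧
      ∀ a : Fin (r + 1) → ℤ, a i = c → ∃ a' : Fin r → ℤ, word z a = word z' a' * z i ^ c := by
  have h0 : ∀ (r : ℕ) (z : Fin (r + 1) → G), (∀ i, Q (z i)) →
      ∀ (c : ℤ), ∃ z' : Fin r → G, (∀ j, Q (z' j)) ∧
      ∀ a : Fin (r + 1) → ℤ, a 0 = c → ∃ a' : Fin r → ℤ, word z a = word z' a' * z 0 ^ c := by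
    intro r z hz c
    refine ⟨fun j => z 0 ^ c * z j.succ * (z 0 ^ c)⁻¹,
      fun j => hQ _ (H.zpow_mem (hQH _ (hz 0)) c) _ (hz j.succ), fun a ha =>
      ⟨fun j => a j.succ, ?_⟩⟩
    rw [CLO_word_conj (z 0 ^ c) (fun j => z j.succ) (fun j => a j.succ), CLO_word_succ, ha]
    group
  intro r
  induction r with
  | zero =>
    intro z hz i c
    have hi : i = 0 := Fin.eq_zero i
    rw [hi]
    exact h0 0 z hz c
  | succ r ih =>
    intro z hz i c
    refine Fin.cases ?_ ?_ i
    · exact h0 (r + 1) z hz c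
    · intro k
      obtain ⟨z', hz', h⟩ := ih (fun i => z i.succ) (fun i => hz i.succ) k c
      refine ⟨Fin.cons (z 0) z', ?_, ?_⟩
      · intro j
        refine Fin.cases ?_ ?_ j
        · simpa using hz 0
        · intro j
          simpa using hz' j
      · intro a ha
        obtain ⟨a', ha'⟩ := h (fun j => a j.succ) ha
        refine ⟨Fin.cons (a 0) a', ?_⟩
        rw [CLO_word_succ z a, ha', CLO_word_succ (Fin.cons (z 0) z')]
        simp only [Fin.cons_zero, Fin.cons_succ, mul_assoc]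

/-- two neighbours -/
theorem CLO_nb : ∀ (r : ℕ) (z : Fin (r + 1) → G) (i : Fin r) (a b : Fin (r + 1) → ℤ),
    (∀ j, j ≠ i.castSucc → j ≠ i.succ → a j = b j) →
    z i.castSucc ^ a i.castSucc * z i.succ ^ a i.succ =
      z i.castSucc ^ b i.castSucc * z i.succ ^ b i.succ → word z a = word z b := by
  intro r
  induction r with
  | zero => intro z i; exact i.elim0
  | succ r ih =>
    intro z i
    refine Fin.cases ?_ ?_ i
    · intro a b hab h
      have h1 : (fun j : Fin r => a j.succ.succ) = fun j => b j.succ.succ := by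
        funext j
        apply hab
        · simp [Fin.ext_iff]
        · simp [Fin.ext_iff]
      rw [CLO_word_succ z a, CLO_word_succ z b, CLO_word_succ _ (fun j => a j.succ),
        CLO_word_succ _ (fun j => b j.succ), ← mul_assoc, ← mul_assoc]
      have h2 : z 0 ^ a 0 * z 1 ^ a 1 = z 0 ^ b 0 * z 1 ^ b 1 := h
      show z 0 ^ a 0 * z 1 ^ a 1 * word _ (fun j : Fin r => a j.succ.succ) =
        z 0 ^ b 0 * z 1 ^ b 1 * word _ (fun j : Fin r => b j.succ.succ)
      rw [h2, h1]
    · intro k a b hab h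
      rw [CLO_word_succ z a, CLO_word_succ z b]
      have h0 : a 0 = b 0 := by
        apply hab
        · simp [Fin.ext_iff]
        · simp [Fin.ext_iff]
      rw [h0]
      refine congrArg (fun t => z 0 ^ b 0 * t) ?_
      refine ih (fun j => z j.succ) k (fun j => a j.succ) (fun j => b j.succ) ?_ ?_
      · intro j h1 h2
        apply hab
        · intro h3
          apply h1
          rw [Fin.ext_iff] at h3 ⊢
          simpa using h3
        · intro h3
          exact h2 (Fin.succ_injective _ h3)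
      · exact h

end words

variable {n : ℕ}

theorem CLO_cm_mul (g h : SLZ n) : cm (g * h) = cm g * cm h := by
  ext i j
  simp [cm, Matrix.mul_apply]

theorem CLO_cm_one : cm (1 : SLZ n) = 1 := by
  ext i j
  simp [cm, Matrix.one_apply]

theorem CLO_cm_mulVec (g h : SLZ n) (x : Fin n → ℂ) : cm g *ᵥ (cm h *ᵥ x) = cm (g * h) *ᵥ x := by
  rw [CLO_cm_mul, mulVec_mulVec]

theorem CLO_ne (g : SLZ n) {x : Fin n → ℂ} (hx : x ≠ 0) : cm g *ᵥ x ≠ 0 := by
  intro h
  apply hx
  have h1 : cm g⁻¹ *ᵥ (cm g *ᵥ x) = x := by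
    rw [CLO_cm_mulVec, inv_mul_cancel, CLO_cm_one, one_mulVec]
  rw [← h1, h, mulVec_zero]

theorem CLO_KK (g : SLZ n) (x : Fin n → ℂ) : KK (cm g *ᵥ x) ⊆ KK x := by
  rintro M (⟨h, rfl⟩ | h)
  · exact Or.inl ⟨h * g, by rw [CLO_cm_mulVec]⟩
  · exact Or.inr h

theorem CLO_tv (v f : Fin n → ℤ) (h : f ⬝ᵥ v = 0) (x : Fin n → ℂ) (hx : cv f ⬝ᵥ x = 0) (c : ℤ) :
    cm (tv v f ^ c) *ᵥ x = x := by
  rw [← tv_zsmul_right h]
  have h1 : cm (tv v (c • f)) = 1 + vecMulVec (cv v) (cv (c • f)) := by
    ext i j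
    unfold cm
    rw [tv_coe (by rw [smul_dotProduct, h, smul_zero])]
    simp [vecMulVec_apply, cv, Matrix.one_apply]
  rw [h1, add_mulVec, one_mulVec, vecMulVec_mulVec]
  have h2 : cv (c • f) ⬝ᵥ x = 0 := by
    have h3 : cv (c • f) = (c : ℂ) • cv f := by
      funext i
      simp [cv]
    rw [h3, smul_dotProduct, hx, smul_zero]
  rw [h2]
  simp

theorem CLO_inv (g : SLZ n) : ((g⁻¹ : SLZ n) : Matrix (Fin n) (Fin n) ℤ) *
    (g : Matrix (Fin n) (Fin n) ℤ) = 1 := by
  refine (Matrix.SpecialLinearGroup.coe_mul g⁻¹ g).symm.trans ?_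
  rw [inv_mul_cancel]
  exact Matrix.SpecialLinearGroup.coe_one

theorem CLO_conj {H : Subgroup (SLZ n)} (g : SLZ n) (hg : g ∈ H) (z : SLZ n) (hz : z ∈ H ∧ IsTv z) :
    g * z * g⁻¹ ∈ H ∧ IsTv (g * z * g⁻¹) := by
  refine ⟨H.mul_mem (H.mul_mem hg hz.1) (H.inv_mem hg), ?_⟩
  obtain ⟨v, f, h⟩ := hz.2
  have he : g * z * g⁻¹ = tv ((g : Matrix (Fin n) (Fin n) ℤ) *ᵥ v)
      (f ᵥ* ((g⁻¹ : SLZ n) : Matrix (Fin n) (Fin n) ℤ)) := by
    rw [h.eq, tv_conj h.dot]
  refine ⟨_, _, ?_, ?_, ?_, he⟩
  · intro h0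
    apply h.ne_v
    have h1 : ((g⁻¹ : SLZ n) : Matrix (Fin n) (Fin n) ℤ) *ᵥ ((g : Matrix (Fin n) (Fin n) ℤ) *ᵥ v) = v := by
      rw [mulVec_mulVec]
      exact (congrArg (fun A => A *ᵥ v) (CLO_inv g)).trans (one_mulVec v)
    rw [← h1, h0, mulVec_zero]
  · intro h0
    apply h.ne_f
    have h1 : (f ᵥ* ((g⁻¹ : SLZ n) : Matrix (Fin n) (Fin n) ℤ)) ᵥ* (g : Matrix (Fin n) (Fin n) ℤ) = f := by
      rw [vecMul_vecMul]
      exact (congrArg (fun A => f ᵥ* A) (CLO_inv g)).trans (vecMul_one f)
    rw [← h1, h0, zero_vecMul]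
  · rw [vecMul_inv_dot, h.dot]

/-- the part of the words with exponent `c` at `i` -/
def CLO_P {r : ℕ} (z : Fin (r + 1) → SLZ n) (x : Fin n → ℂ) (i : Fin (r + 1)) (c : ℤ) :
    Set (Matrix (Fin n) (Fin n) ℂ) :=
  {M | ∃ a : Fin (r + 1) → ℤ, a i = c ∧ M = pr (cm (word z a) *ᵥ x)}

theorem CLO (hLED : LED_stmt) (_hPRC : PRC_stmt) : CLO_stmt := by
  intro n H hR r
  induction r with
  | zero =>
    intro z hz x hx
    have h1 : (Set.range fun a : Fin 0 → ℤ => pr (cm (word z a) *ᵥ x)) ⊆ {pr x} := by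
      rintro _ ⟨a, rfl⟩
      simp [word, CLO_cm_one]
    refine (closure_mono h1).trans ?_
    rw [closure_singleton]
    rintro M rfl
    exact Or.inl ⟨1, by rw [CLO_cm_one, one_mulVec]⟩
  | succ r ih =>
    intro z hz x hx
    have hP : ∀ i c, closure (CLO_P z x i c) ⊆ KK x := by
      intro i c
      obtain ⟨z', hz', h⟩ := CLO_move (fun g => g ∈ H ∧ IsTv g) H
        (fun g hg z hz => CLO_conj g hg z hz) (fun z hz => hz.1) r z hz i c
      refine (closure_mono ?_).trans ((ih z' hz' (cm (z i ^ c) *ᵥ x) (CLO_ne _ hx)).trans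
        (CLO_KK _ x))
      rintro M ⟨a, ha, rfl⟩
      obtain ⟨a', ha'⟩ := h a ha
      refine ⟨a', ?_⟩
      show pr (cm (word z' a') *ᵥ (cm (z i ^ c) *ᵥ x)) = _
      rw [CLO_cm_mulVec, ha']
    by_cases hcp : ∃ i : Fin r, CP (z i.castSucc) (z i.succ)
    · -- two neighbours with a common power
      obtain ⟨i, p, q, hp, _hq, hpq⟩ := hcp
      have hsub : (Set.range fun a : Fin (r + 1) → ℤ => pr (cm (word z a) *ᵥ x)) ⊆
          ⋃ ρ ∈ Finset.range p.natAbs, CLO_P z x i.castSucc (ρ : ℤ) := by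
        rintro _ ⟨a, rfl⟩
        have hm0 : 0 ≤ a i.castSucc % p := Int.emod_nonneg _ hp
        have hm1 : a i.castSucc % p < |p| := Int.emod_lt_abs _ hp
        refine Set.mem_iUnion₂.2 ⟨(a i.castSucc % p).toNat, ?_, ?_⟩
        · rw [Int.abs_eq_natAbs] at hm1
          rw [Finset.mem_range]
          exact (Int.toNat_lt hm0).2 hm1
        · have hne : i.castSucc ≠ i.succ := (Fin.castSucc_lt_succ).ne
          refine ⟨Function.update (Function.update a i.castSucc (a i.castSucc % p)) i.succ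
            (q * (a i.castSucc / p) + a i.succ), ?_, ?_⟩
          · rw [Function.update_of_ne hne, Function.update_self, Int.toNat_of_nonneg hm0]
          · show pr (cm (word z a) *ᵥ x) = pr (cm (word z _) *ᵥ x)
            refine congrArg (fun w => pr (cm w *ᵥ x)) ?_
            apply CLO_nb r z i
            · intro j h1 h2
              rw [Function.update_of_ne h2, Function.update_of_ne h1]
            · rw [Function.update_of_ne hne, Function.update_self, Function.update_self]
              have h3 : a i.castSucc = a i.castSucc % p + p * (a i.castSucc / p) :=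
                (Int.emod_add_mul_ediv _ _).symm
              have h4 : z i.castSucc ^ a i.castSucc =
                  z i.castSucc ^ (a i.castSucc % p) * z i.succ ^ (q * (a i.castSucc / p)) := by
                conv_lhs => rw [h3]
                rw [_root_.zpow_add, _root_.zpow_mul, hpq, ← _root_.zpow_mul]
              rw [h4, _root_.zpow_add, mul_assoc]
      refine (closure_mono hsub).trans ?_
      rw [Finset.closure_biUnion]
      exact Set.iUnion₂_subset fun ρ _ => hP _ _
    · push Not at hcp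
      have hdata : ∀ i, ∃ v f : Fin n → ℤ, Tv (z i) v f := fun i => (hz i).2
      choose v f hvf using hdata
      by_cases hf : cv (f (Fin.last r)) ⬝ᵥ x = 0
      · have hsub : (Set.range fun a : Fin (r + 1) → ℤ => pr (cm (word z a) *ᵥ x)) ⊆
            CLO_P z x (Fin.last r) 0 := by
          rintro _ ⟨a, rfl⟩
          refine ⟨Function.update a (Fin.last r) 0, by rw [Function.update_self], ?_⟩
          show pr (cm (word z a) *ᵥ x) = pr (cm (word z _) *ᵥ x)
          rw [CLO_word_last z a, CLO_word_last z (Function.update a (Fin.last r) 0),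
            Function.update_self, zpow_zero, mul_one, ← CLO_cm_mulVec, (hvf (Fin.last r)).eq,
            CLO_tv _ _ (hvf (Fin.last r)).dot x hf]
          have h1 : (fun i : Fin r => Function.update a (Fin.last r) 0 i.castSucc) =
              fun i : Fin r => a i.castSucc := by
            funext i
            rw [Function.update_of_ne (Fin.castSucc_lt_last i).ne]
          rw [h1]
        exact (closure_mono hsub).trans (hP _ _)
      · intro y hy
        by_contra hyK
        have hv0 : pr (cv (v 0)) ∈ KK x := Or.inr ⟨v 0, (hvf 0).ne_v, rfl⟩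
        have hne : y ≠ pr (cv (v 0)) := fun h => hyK (h ▸ hv0)
        obtain ⟨i0, j0, hij⟩ : ∃ i0 j0, y i0 j0 ≠ pr (cv (v 0)) i0 j0 := by
          by_contra hc
          push Not at hc
          exact hne (Matrix.ext hc)
        have hε : 0 < ‖y i0 j0 - pr (cv (v 0)) i0 j0‖ / 2 := by
          have := norm_pos_iff.2 (sub_ne_zero.2 hij)
          linarith
        obtain ⟨M, hM⟩ := hLED n H hR r z v f (fun i => (hz i).1) hvf hcp x hf _ hε
        have hsub : (Set.range fun a : Fin (r + 1) → ℤ => pr (cm (word z a) *ᵥ x)) ⊆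
            {Y | ‖Y i0 j0 - pr (cv (v 0)) i0 j0‖ ≤ ‖y i0 j0 - pr (cv (v 0)) i0 j0‖ / 2} ∪
            ⋃ ic ∈ (Finset.univ : Finset (Fin (r + 1))) ×ˢ Finset.Icc (-(M : ℤ)) M,
              CLO_P z x ic.1 ic.2 := by
          rintro _ ⟨a, rfl⟩
          by_cases ha : ∀ i, (M : ℤ) ≤ |a i|
          · exact Or.inl (hM a ha i0 j0).le
          · push Not at ha
            obtain ⟨i, hi⟩ := ha
            refine Or.inr (Set.mem_iUnion₂.2 ⟨(i, a i), ?_, a, rfl, rfl⟩)
            rw [Finset.mem_product, Finset.mem_Icc]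
            exact ⟨Finset.mem_univ _, (abs_lt.1 hi).1.le, (abs_lt.1 hi).2.le⟩
        have hy2 := closure_mono hsub hy
        rw [closure_union] at hy2
        rcases hy2 with h1 | h1
        · have hcl : IsClosed {Y : Matrix (Fin n) (Fin n) ℂ |
              ‖Y i0 j0 - pr (cv (v 0)) i0 j0‖ ≤ ‖y i0 j0 - pr (cv (v 0)) i0 j0‖ / 2} :=
            isClosed_le ((continuous_id.matrix_elem i0 j0).sub continuous_const).norm
              continuous_const
          rw [hcl.closure_eq] at h1
          have h2 : ‖y i0 j0 - pr (cv (v 0)) i0 j0‖ ≤ ‖y i0 j0 - pr (cv (v 0)) i0 j0‖ / 2 := h1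
          linarith
        · rw [Finset.closure_biUnion] at h1
          obtain ⟨ic, _, h2⟩ := Set.mem_iUnion₂.1 h1
          exact hyK (hP _ _ h2)

end Pool.Agent.TF
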